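import Mathlib

/-!
Numeric part: sums of shifted binomial sequences.
-/

namespace Pool.Agent.H28.UV

lemma le_choose : ∀ b t : ℕ, 1 ≤ t → t < b → b ≤ b.choose t := by
  intro b
  induction b with
  | zero => intro t _ h; omega
  | succ b ih =>
    intro t h1 h2
    obtain ⟨t, rfl⟩ : ∃ s, t = s + 1 := ⟨t - 1, by omega⟩
    rw [Nat.choose_succ_succ, Nat.succ_eq_add_one]
    rcases Nat.eq_zero_or_pos t with rfl | ht
    · simp
      try omega
    · have h3 := ih t ht (by omega)
      have h4 : 0 < b.choose (t + 1) := Nat.choose_pos (by omega)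
      omega

lemma choose_mul_choose_le (M b j t : ℕ) :
    M.choose j * b.choose t ≤ (M + b).choose (j + t) := by
  rw [Nat.add_choose_eq]
  exact Finset.single_le_sum (f := fun ij : ℕ × ℕ => M.choose ij.1 * b.choose ij.2)
    (fun _ _ => Nat.zero_le _) (a := (j, t)) (by simp)

/-- decreasing part -/
lemma choose_succ_le (M j : ℕ) (h : M ≤ 2 * j + 1) : M.choose (j + 1) ≤ M.choose j := by
  have h1 := Nat.choose_succ_right_eq M j
  have h2 : M - j ≤ j + 1 := by omega
  have h3 : M.choose (j + 1) * (j + 1) ≤ M.choose j * (j + 1) := by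
    rw [h1]; exact Nat.mul_le_mul_left _ h2
  exact Nat.le_of_mul_le_mul_right h3 (by omega)

/-- real form of the recursion -/
lemma choose_succ_real (M j : ℕ) :
    (M.choose (j + 1) : ℝ) * (j + 1) = M.choose j * ((M : ℝ) - j) := by
  have h1 := Nat.choose_succ_right_eq M j
  rcases le_or_gt j M with h | h
  · have h2 : ((M.choose (j + 1) * (j + 1) : ℕ) : ℝ) = ((M.choose j * (M - j) : ℕ) : ℝ) := by
      exact_mod_cast h1
    push_cast [Nat.cast_sub h] at h2
    linarith
  · rw [Nat.choose_eq_zero_of_lt h, Nat.choose_eq_zero_of_lt (by omega)]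
    simp

/-- second difference -/
lemma second_diff (M j : ℕ) :
    ((M.choose (j + 2) : ℝ) - 2 * M.choose (j + 1) + M.choose j) * ((M + 1) * (M + 2)) =
      (M + 2).choose (j + 2) * (((M : ℝ) - 2 * j - 2) ^ 2 - (M + 2)) := by
  -- express everything by choose M j
  have e1 := choose_succ_real M j
  have e2 := choose_succ_real M (j + 1)
  have e3 : (((M + 2).choose (j + 2) : ℕ) : ℝ) =
      M.choose j + 2 * M.choose (j + 1) + M.choose (j + 2) := by
    have : (M + 2).choose (j + 2) = M.choose j + 2 * M.choose (j + 1) + M.choose (j + 2) := by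
      rw [Nat.choose_succ_succ (M + 1) (j + 1), Nat.choose_succ_succ M j,
        Nat.choose_succ_succ M (j + 1)]
      ring
    rw [this]; push_cast; ring
  rw [e3]
  push_cast at e2
  set a : ℝ := (M.choose j : ℝ)
  set p : ℝ := (M.choose (j + 1) : ℝ)
  set c : ℝ := (M.choose (j + 2) : ℝ)
  have hj1 : (j : ℝ) + 1 ≠ 0 := by positivity
  have hj2 : (j : ℝ) + 1 + 1 ≠ 0 := by positivity
  have hp : p = a * ((M : ℝ) - j) / (j + 1) := by
    field_simp; linarith
  have hc : c = p * ((M : ℝ) - (j + 1)) / (j + 1 + 1) := by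
    rw [eq_div_iff hj2]; linarith
  rw [hc, hp]
  field_simp
  ring

lemma choose_le_succ_succ (n r t : ℕ) : n.choose r ≤ (n + t).choose (r + t) := by
  induction t with
  | zero => simp
  | succ t ih =>
    refine ih.trans ?_
    rw [← Nat.add_assoc, ← Nat.add_assoc, Nat.choose_succ_succ]
    omega

lemma choose_decay (r : ℕ) : ∀ s n : ℕ, n + s ≤ 4 * r →
    (n.choose r : ℝ) ≤ (3 / 4 : ℝ) ^ s * (n + s).choose r := by
  intro s
  induction s with
  | zero => intro n _; simp
  | succ s ih =>
    intro n h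
    have h1 := ih n (by omega)
    have h2 := Nat.choose_mul_succ_eq (n + s) r
    have h3 : ((n + s).choose r : ℝ) ≤ (3 / 4) * ((n + (s + 1)).choose r : ℝ) := by
      rcases le_or_gt r (n + s + 1) with hr | hr
      · have h4 : (((n + s).choose r * (n + s + 1) : ℕ) : ℝ) =
            (((n + s + 1).choose r * (n + s + 1 - r) : ℕ) : ℝ) := by exact_mod_cast h2
        push_cast [Nat.cast_sub hr] at h4
        have h5 : ((n : ℝ) + s + 1 - r) ≤ 3 / 4 * (n + s + 1) := by
          have : ((n + (s + 1) : ℕ) : ℝ) ≤ ((4 * r : ℕ) : ℝ) := by exact_mod_cast h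
          push_cast at this
          linarith
        have h6 : (0 : ℝ) ≤ ((n + s + 1).choose r : ℝ) := by positivity
        have h7 : (0 : ℝ) < (n : ℝ) + s + 1 := by positivity
        have h8 : ((n + s).choose r : ℝ) * (n + s + 1) ≤
            (3 / 4 * ((n + s + 1).choose r : ℝ)) * (n + s + 1) := by
          rw [h4]
          nlinarith
        exact le_of_mul_le_mul_right h8 h7
      · rw [Nat.choose_eq_zero_of_lt (by omega : n + s < r)]
        simp
    calc (n.choose r : ℝ) ≤ (3 / 4 : ℝ) ^ s * (n + s).choose r := h1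
      _ ≤ (3 / 4 : ℝ) ^ s * ((3 / 4) * ((n + (s + 1)).choose r : ℝ)) := by
          apply mul_le_mul_of_nonneg_left h3; positivity
      _ = _ := by ring

/-- a shifted binomial coefficient -/
def sh (M t k : ℕ) : ℕ := if t ≤ k then M.choose (k - t) else 0

end Pool.Agent.H28.UV
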