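import Mathlib
import Pool.Agent.H28.UV.Num

open Finset

namespace Pool.Agent.H28.UV

/-- the sequence -/
def F {ι : Type*} (I : Finset ι) (N : ℕ) (b t : ι → ℕ) (k : ℕ) : ℕ :=
  N.choose k + ∑ i ∈ I, sh (N - b i) (t i) k

lemma sh_down (N b t ν k : ℕ) (ht : t ≤ ν) (hN : 1 ≤ N)
    (h : N + 2 * ν ≤ 2 * k + 1) : sh (N - b) t (k + 1) ≤ sh (N - b) t k := by
  have hk : t ≤ k := by omega
  unfold sh
  rw [if_pos hk, if_pos (by omega : t ≤ k + 1)]
  have : k + 1 - t = (k - t) + 1 := by omega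
  rw [this]
  apply choose_succ_le
  omega

lemma F_down {ι : Type*} (I : Finset ι) (N ν k : ℕ) (b t : ι → ℕ)
    (ht : ∀ i ∈ I, t i ≤ ν) (hN : 1 ≤ N)
    (h : N + 2 * ν ≤ 2 * k + 1) : F I N b t (k + 1) ≤ F I N b t k := by
  unfold F
  apply Nat.add_le_add
  · exact choose_succ_le _ _ (by omega)
  · exact Finset.sum_le_sum fun i hi => sh_down N (b i) (t i) ν k (ht i hi) hN h

lemma sh_up (N b t ν k : ℕ) (h1 : 1 ≤ t) (ht : t ≤ ν) (hb : b ≤ N) (h : 2 * k + 1 ≤ N) :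
    ((k : ℝ) + 1) * ((sh (N - b) t k : ℝ) - sh (N - b) t (k + 1)) ≤ (ν + 1) * N.choose k := by
  unfold sh
  by_cases hk : t ≤ k
  · rw [if_pos hk, if_pos (by omega : t ≤ k + 1)]
    obtain ⟨j, rfl⟩ : ∃ j, k = j + t := ⟨k - t, by omega⟩
    obtain ⟨M, rfl⟩ : ∃ M, N = M + b := ⟨N - b, by omega⟩
    have e1 : M + b - b = M := by omega
    have e2 : j + t - t = j := by omega
    have e3 : j + t + 1 - t = j + 1 := by omega
    rw [e1, e2, e3]
    have hr := choose_succ_real M j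
    set a : ℝ := (M.choose j : ℝ) with ha'
    set p : ℝ := (M.choose (j + 1) : ℝ)
    have ha : 0 ≤ a := by rw [ha']; positivity
    have hp : ((j : ℝ) + 1) * (a - p) = a * (2 * j + 1 - M) := by linarith
    have hj : (0 : ℝ) < (j : ℝ) + 1 := by positivity
    rcases le_or_gt ((2 : ℝ) * j + 1 - M) 0 with h0 | h0
    · have h2 : a - p ≤ 0 := by
        have h3 : ((j : ℝ) + 1) * (a - p) ≤ 0 := by
          rw [hp]; exact mul_nonpos_of_nonneg_of_nonpos ha h0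
        by_contra hc
        push Not at hc
        have := mul_pos hj hc
        linarith
      have h5 : (0 : ℝ) ≤ ((j + t : ℕ) : ℝ) + 1 := by positivity
      have h6 : (((j + t : ℕ) : ℝ) + 1) * (a - p) ≤ 0 := mul_nonpos_of_nonneg_of_nonpos h5 h2
      have h7 : (0 : ℝ) ≤ (ν + 1) * ((M + b).choose (j + t) : ℝ) := by positivity
      linarith
    · have hb2 : 2 * t < b := by
        have h5 : (M : ℝ) < 2 * j + 1 := by linarith
        have h6 : M < 2 * j + 1 := by exact_mod_cast h5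
        omega
      have hcb : b ≤ b.choose t := le_choose b t h1 (by omega)
      have hV := choose_mul_choose_le M b j t
      have hV2 : a * b ≤ ((M + b).choose (j + t) : ℝ) := by
        have : M.choose j * b ≤ (M + b).choose (j + t) := (Nat.mul_le_mul_left _ hcb).trans hV
        rw [ha']
        exact_mod_cast this
      have h7 : (((j + t : ℕ) : ℝ) + 1) ≤ (ν + 1) * (j + 1) := by
        have : j + t + 1 ≤ (ν + 1) * (j + 1) := by nlinarith
        exact_mod_cast this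
      have h8 : (2 * (j : ℝ) + 1 - M) ≤ b := by
        have h9 : 2 * j + 1 ≤ M + b := by omega
        have h10 : ((2 * j + 1 : ℕ) : ℝ) ≤ ((M + b : ℕ) : ℝ) := by exact_mod_cast h9
        push_cast at h10
        linarith
      have h9 : 0 ≤ a - p := by
        have h3 : 0 ≤ ((j : ℝ) + 1) * (a - p) := by
          rw [hp]; exact mul_nonneg ha h0.le
        by_contra hc
        push Not at hc
        have := mul_neg_of_pos_of_neg hj hc
        linarith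
      calc (((j + t : ℕ) : ℝ) + 1) * (a - p) ≤ ((ν + 1) * (j + 1)) * (a - p) :=
            mul_le_mul_of_nonneg_right h7 h9
        _ = (ν + 1) * (a * (2 * j + 1 - M)) := by rw [← hp]; ring
        _ ≤ (ν + 1) * (a * b) := by gcongr
        _ ≤ _ := by gcongr
  · rw [if_neg hk]
    have h4 : (0 : ℝ) ≤ ((if t ≤ k + 1 then (N - b).choose (k + 1 - t) else 0 : ℕ) : ℝ) :=
      Nat.cast_nonneg _
    have h5 : (0 : ℝ) ≤ (ν + 1) * (N.choose k : ℝ) := by positivity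
    have h6 : (0 : ℝ) ≤ (k : ℝ) + 1 := by positivity
    have h7 := mul_nonneg h6 h4
    simp only [Nat.cast_zero, zero_sub]
    linarith

lemma F_up {ι : Type*} (I : Finset ι) (N ν X k : ℕ) (b t : ι → ℕ)
    (h1 : ∀ i ∈ I, 1 ≤ t i) (ht : ∀ i ∈ I, t i ≤ ν) (hb : ∀ i ∈ I, b i ≤ N)
    (hX : I.card * (ν + 1) ≤ X) (h : 2 * k + 1 + X ≤ N) :
    F I N b t k ≤ F I N b t (k + 1) := by
  have hs : ∑ i ∈ I, (((k : ℝ) + 1) *
      ((sh (N - b i) (t i) k : ℝ) - sh (N - b i) (t i) (k + 1))) ≤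
      ∑ i ∈ I, ((ν + 1) * (N.choose k : ℝ)) :=
    Finset.sum_le_sum fun i hi =>
      sh_up N (b i) (t i) ν k (h1 i hi) (ht i hi) (hb i hi) (by omega)
  rw [Finset.sum_const, nsmul_eq_mul, ← Finset.mul_sum, Finset.sum_sub_distrib] at hs
  have hr := choose_succ_real N k
  have hX' : (I.card : ℝ) * (ν + 1) ≤ X := by exact_mod_cast hX
  have hN : 2 * (k : ℝ) + 1 + X ≤ N := by exact_mod_cast h
  have hc : (0 : ℝ) ≤ (N.choose k : ℝ) := by positivity
  have f3 : (0 : ℝ) ≤ (N.choose k : ℝ) * ((N : ℝ) - 2 * k - 1 - X) :=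
    mul_nonneg hc (by linarith)
  have f4 : (0 : ℝ) ≤ (N.choose k : ℝ) * ((X : ℝ) - I.card * (ν + 1)) :=
    mul_nonneg hc (by linarith)
  have key : (0 : ℝ) ≤ ((k : ℝ) + 1) * ((F I N b t (k + 1) : ℝ) - F I N b t k) := by
    unfold F
    push_cast
    nlinarith
  have hk : (0 : ℝ) < (k : ℝ) + 1 := by positivity
  have h5 : (0 : ℝ) ≤ (F I N b t (k + 1) : ℝ) - F I N b t k := by
    by_contra hneg
    push Not at hneg
    have := mul_neg_of_pos_of_neg hk hneg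
    linarith
  have h6 : (F I N b t k : ℝ) ≤ F I N b t (k + 1) := by linarith
  exact_mod_cast h6

lemma conc (M j : ℕ) (h : ((M : ℝ) - 2 * j - 2) ^ 2 ≤ M + 2) :
    (M.choose (j + 2) : ℝ) - 2 * M.choose (j + 1) + M.choose j ≤ 0 := by
  have h1 := second_diff M j
  have h2 : ((M + 2).choose (j + 2) : ℝ) * (((M : ℝ) - 2 * j - 2) ^ 2 - (M + 2)) ≤ 0 :=
    mul_nonpos_of_nonneg_of_nonpos (by positivity) (by linarith)
  rw [← h1] at h2
  have h3 : (0 : ℝ) < ((M : ℝ) + 1) * (M + 2) := by positivity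
  by_contra hc
  push Not at hc
  have := mul_pos hc h3
  linarith

lemma conc_strong (M j : ℕ) (h : 2 * ((M : ℝ) - 2 * j - 2) ^ 2 ≤ M + 2) :
    (M.choose (j + 2) : ℝ) - 2 * M.choose (j + 1) + M.choose j ≤
      - ((M + 2).choose (j + 2) : ℝ) / (2 * (M + 1)) := by
  have h1 := second_diff M j
  have h3 : (0 : ℝ) < ((M : ℝ) + 1) * (M + 2) := by positivity
  have h4 : (0 : ℝ) < 2 * ((M : ℝ) + 1) := by positivity
  have hC : (0 : ℝ) ≤ ((M + 2).choose (j + 2) : ℝ) := by positivity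
  rw [le_div_iff₀ h4]
  have h5 : (0 : ℝ) < (M : ℝ) + 2 := by positivity
  set d : ℝ := (M.choose (j + 2) : ℝ) - 2 * M.choose (j + 1) + M.choose j
  have h6 : (d * (2 * ((M : ℝ) + 1)) + (M + 2).choose (j + 2)) * (M + 2) ≤ 0 := by
    have : (d * (2 * ((M : ℝ) + 1)) + (M + 2).choose (j + 2)) * (M + 2) =
        ((M + 2).choose (j + 2) : ℝ) * (2 * ((M : ℝ) - 2 * j - 2) ^ 2 - (M + 2)) := by
      linear_combination 2 * h1
    rw [this]
    exact mul_nonpos_of_nonneg_of_nonpos hC (by linarith)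
  have h7 : d * (2 * ((M : ℝ) + 1)) + (M + 2).choose (j + 2) ≤ 0 := by
    by_contra hc
    push Not at hc
    have := mul_pos hc h5
    linarith
  linarith

lemma pascal2 (M j : ℕ) :
    (M + 2).choose (j + 2) = M.choose j + 2 * M.choose (j + 1) + M.choose (j + 2) := by
  rw [Nat.choose_succ_succ (M + 1) (j + 1), Nat.choose_succ_succ M j,
    Nat.choose_succ_succ M (j + 1)]
  ring

lemma sh_mid (N b t ν X B k : ℕ) (ht : t ≤ ν) (hb : b ≤ N) (hk : ν ≤ k)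
    (hB : (X + 2 * ν + B) ^ 2 + B ≤ N + 2) (h1 : N ≤ 2 * k + X) (h2 : 2 * k + 2 ≤ N + 2 * ν)
    (h4 : N + 2 ≤ 4 * (k + 2)) (hBν : ν ≤ B) :
    (sh (N - b) t (k + 2) : ℝ) - 2 * sh (N - b) t (k + 1) + sh (N - b) t k ≤
      (3 / 4 : ℝ) ^ (B - ν) * (N + 2).choose (k + 2) := by
  unfold sh
  rw [if_pos (by omega : t ≤ k + 2), if_pos (by omega : t ≤ k + 1), if_pos (by omega : t ≤ k)]
  obtain ⟨j, rfl⟩ : ∃ j, k = j + t := ⟨k - t, by omega⟩
  obtain ⟨M, rfl⟩ : ∃ M, N = M + b := ⟨N - b, by omega⟩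
  have e1 : M + b - b = M := by omega
  have e2 : j + t - t = j := by omega
  have e3 : j + t + 1 - t = j + 1 := by omega
  have e4 : j + t + 2 - t = j + 2 := by omega
  rw [e1, e2, e3, e4]
  rcases lt_or_ge b B with hbB | hbB
  · refine (conc M j ?_).trans (by positivity)
    have hB' : ((X : ℝ) + 2 * ν + B) ^ 2 + B ≤ M + b + 2 := by exact_mod_cast hB
    have q1 : (M : ℝ) + b ≤ 2 * (j + t) + X := by exact_mod_cast h1
    have q2 : 2 * ((j : ℝ) + t) + 2 ≤ M + b + 2 * ν := by exact_mod_cast h2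
    have q3 : (b : ℝ) < B := by exact_mod_cast hbB
    have q4 : (t : ℝ) ≤ ν := by exact_mod_cast ht
    have q5 : (0 : ℝ) ≤ b := by positivity
    have q6 : (0 : ℝ) ≤ t := by positivity
    have q7 : (0 : ℝ) ≤ X := by positivity
    have q8 : ((M : ℝ) - 2 * j - 2) ^ 2 ≤ ((X : ℝ) + 2 * ν + B) ^ 2 := by
      apply sq_le_sq'
      · linarith
      · linarith
    linarith
  · have hsum : (M.choose (j + 2) : ℝ) - 2 * M.choose (j + 1) + M.choose j ≤
        (M + 2).choose (j + 2) := by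
      rw [pascal2]
      push_cast
      have : (0 : ℝ) ≤ (M.choose (j + 1) : ℝ) := by positivity
      linarith
    have h5 : (((M + 2).choose (j + 2) : ℕ) : ℝ) ≤ (((M + 2 + t).choose (j + 2 + t) : ℕ) : ℝ) := by
      exact_mod_cast choose_le_succ_succ (M + 2) (j + 2) t
    have h6 := choose_decay (j + 2 + t) (b - t) (M + 2 + t) (by omega)
    have e5 : M + 2 + t + (b - t) = M + b + 2 := by omega
    have e6 : j + 2 + t = j + t + 2 := by omega
    rw [e6] at h5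
    rw [e5, e6] at h6
    have h7 : (3 / 4 : ℝ) ^ (b - t) ≤ (3 / 4 : ℝ) ^ (B - ν) :=
      pow_le_pow_of_le_one (by norm_num) (by norm_num) (by omega)
    calc (M.choose (j + 2) : ℝ) - 2 * M.choose (j + 1) + M.choose j
        ≤ (M + 2).choose (j + 2) := hsum
      _ ≤ ((M + 2 + t).choose (j + t + 2) : ℝ) := h5
      _ ≤ (3 / 4 : ℝ) ^ (b - t) * (M + b + 2).choose (j + t + 2) := h6
      _ ≤ _ := by gcongr

lemma F_mid {ι : Type*} (I : Finset ι) (N ν X B k : ℕ) (b t : ι → ℕ)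
    (ht : ∀ i ∈ I, t i ≤ ν) (hb : ∀ i ∈ I, b i ≤ N) (hk : ν ≤ k)
    (hB : (X + 2 * ν + B) ^ 2 + B ≤ N + 2) (hB2 : 2 * (X + 2 * ν) ^ 2 ≤ N + 2)
    (h1 : N ≤ 2 * k + X) (h2 : 2 * k + 2 ≤ N + 2 * ν)
    (h4 : N + 2 ≤ 4 * (k + 2)) (hBν : ν ≤ B)
    (hI : (I.card : ℝ) * (3 / 4 : ℝ) ^ (B - ν) * (2 * (N + 1)) ≤ 1) :
    F I N b t (k + 2) + F I N b t k ≤ 2 * F I N b t (k + 1) := by
  have hs : ∑ i ∈ I, ((sh (N - b i) (t i) (k + 2) : ℝ) - 2 * sh (N - b i) (t i) (k + 1) +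
      sh (N - b i) (t i) k) ≤ ∑ i ∈ I, ((3 / 4 : ℝ) ^ (B - ν) * (N + 2).choose (k + 2)) :=
    Finset.sum_le_sum fun i hi =>
      sh_mid N (b i) (t i) ν X B k (ht i hi) (hb i hi) hk hB h1 h2 h4 hBν
  rw [Finset.sum_const, nsmul_eq_mul, Finset.sum_add_distrib, Finset.sum_sub_distrib,
    ← Finset.mul_sum] at hs
  have h5 := conc_strong N k (by
    have hB' : 2 * ((X : ℝ) + 2 * ν) ^ 2 ≤ N + 2 := by exact_mod_cast hB2
    have q1 : (N : ℝ) ≤ 2 * k + X := by exact_mod_cast h1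
    have q2 : 2 * (k : ℝ) + 2 ≤ N + 2 * ν := by exact_mod_cast h2
    have q5 : (0 : ℝ) ≤ ν := by positivity
    have q7 : (0 : ℝ) ≤ X := by positivity
    have q8 : ((N : ℝ) - 2 * k - 2) ^ 2 ≤ ((X : ℝ) + 2 * ν) ^ 2 := by
      apply sq_le_sq'
      · linarith
      · linarith
    linarith)
  have hC : (0 : ℝ) ≤ ((N + 2).choose (k + 2) : ℝ) := by positivity
  have h6 : (0 : ℝ) < 2 * ((N : ℝ) + 1) := by positivity
  have h7 : (I.card : ℝ) * ((3 / 4 : ℝ) ^ (B - ν) * (N + 2).choose (k + 2)) ≤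
      ((N + 2).choose (k + 2) : ℝ) / (2 * (N + 1)) := by
    rw [le_div_iff₀ h6]
    have := mul_le_mul_of_nonneg_right hI hC
    linarith
  have h8 : (F I N b t (k + 2) : ℝ) + F I N b t k ≤ 2 * F I N b t (k + 1) := by
    unfold F
    push_cast
    have h9 : - ((N + 2).choose (k + 2) : ℝ) / (2 * (N + 1)) =
      - (((N + 2).choose (k + 2) : ℝ) / (2 * (N + 1))) := by ring
    rw [h9] at h5
    linarith
  exact_mod_cast h8

theorem F_unimodal {ι : Type*} (I : Finset ι) (N ν X B : ℕ) (b t : ι → ℕ)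
    (h1 : ∀ i ∈ I, 1 ≤ t i) (ht : ∀ i ∈ I, t i ≤ ν) (hb : ∀ i ∈ I, b i ≤ N)
    (hN : 1 ≤ N) (hX : I.card * (ν + 1) ≤ X) (hXN : 2 * X + 2 * ν ≤ N)
    (hB : (X + 2 * ν + B) ^ 2 + B ≤ N + 2) (hB2 : 2 * (X + 2 * ν) ^ 2 ≤ N + 2)
    (hBν : ν ≤ B)
    (hI : (I.card : ℝ) * (3 / 4 : ℝ) ^ (B - ν) * (2 * (N + 1)) ≤ 1) :
    ∃ m, (∀ i, i < m → F I N b t i ≤ F I N b t (i + 1)) ∧
      ∀ i, m ≤ i → F I N b t (i + 1) ≤ F I N b t i := by
  classical
  by_cases hex : ∃ k, F I N b t (k + 1) < F I N b t k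
  · refine ⟨Nat.find hex, fun i hi => ?_, fun i hi => ?_⟩
    · exact not_lt.1 (Nat.find_min hex hi)
    · induction i, hi using Nat.le_induction with
      | base => exact (Nat.find_spec hex).le
      | succ i hi ih =>
        by_cases c1 : N + 2 * ν ≤ 2 * i + 1
        · exact F_down I N ν (i + 1) b t ht hN (by omega)
        · by_cases c2 : 2 * i + 1 + X ≤ N
          · exfalso
            have h3 := F_up I N ν X (Nat.find hex) b t h1 ht hb hX (by omega)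
            have h4 := Nat.find_spec hex
            omega
          · have h5 := F_mid I N ν X B i b t ht hb (by omega) hB hB2 (by omega) (by omega)
              (by omega) hBν hI
            have e : i + 1 + 1 = i + 2 := rfl
            rw [e]
            omega
  · push Not at hex
    exact ⟨N + 2 * ν + 1, fun i _ => hex i, fun i hi => F_down I N ν i b t ht hN (by omega)⟩

lemma pow_big : ∀ m : ℕ, 60 ≤ m → (72 : ℝ) * (m : ℝ) ^ 3 ≤ (4 / 3 : ℝ) ^ m := by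
  intro m hm
  induction m, hm using Nat.le_induction with
  | base => norm_num
  | succ m hm ih =>
    have h1 : (60 : ℝ) ≤ m := by exact_mod_cast hm
    have h3 : (4 / 3 : ℝ) ^ (m + 1) = (4 / 3 : ℝ) ^ m * (4 / 3) := pow_succ _ _
    rw [h3]
    push_cast
    have h2 : (72 : ℝ) * ((m : ℝ) + 1) ^ 3 ≤ 72 * (m : ℝ) ^ 3 * (4 / 3) := by
      nlinarith [mul_nonneg (sub_nonneg.2 h1) (sq_nonneg (m : ℝ)), sq_nonneg ((m : ℝ) - 60)]
    linarith

theorem F_unimodal' {ι : Type*} (I : Finset ι) (N ν : ℕ) (b t : ι → ℕ)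
    (h1 : ∀ i ∈ I, 1 ≤ t i) (ht : ∀ i ∈ I, t i ≤ ν) (hb : ∀ i ∈ I, b i ≤ N)
    (hI : I.card ≤ 2 ^ ν) (hN : 9 * ((ν + 1) * 2 ^ ν + 2 * ν + 60) ^ 2 ≤ N) :
    ∃ m, (∀ i, i < m → F I N b t i ≤ F I N b t (i + 1)) ∧
      ∀ i, m ≤ i → F I N b t (i + 1) ≤ F I N b t i := by
  set X : ℕ := (ν + 1) * 2 ^ ν with hXdef
  set B : ℕ := Nat.sqrt N / 3 with hBdef
  have hs : 3 * (X + 2 * ν + 60) ≤ Nat.sqrt N := by
    rw [Nat.le_sqrt']
    calc (3 * (X + 2 * ν + 60)) ^ 2 = 9 * (X + 2 * ν + 60) ^ 2 := by ring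
      _ ≤ N := hN
  have hBR : X + 2 * ν + 60 ≤ B := by omega
  have hB9 : (3 * B) ^ 2 ≤ N := by
    rw [← Nat.le_sqrt']; omega
  have hBN : N + 1 ≤ (3 * (B + 1)) ^ 2 := by
    have h5 : Nat.sqrt N < 3 * (B + 1) := by omega
    have h6 := Nat.sqrt_lt'.1 h5
    omega
  have hX2 : 2 ^ ν ≤ X := by
    rw [hXdef]; nlinarith [Nat.zero_le ν, Nat.zero_le (2 ^ ν)]
  have hX1 : I.card * (ν + 1) ≤ X := by
    rw [hXdef, mul_comm (ν + 1)]; exact Nat.mul_le_mul_right _ hI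
  have a1 : (X + 2 * ν + B) ^ 2 + B ≤ N + 2 := by
    have : (X + 2 * ν + B) ^ 2 ≤ (2 * B) ^ 2 := Nat.pow_le_pow_left (by omega) 2
    nlinarith
  have a2 : 2 * (X + 2 * ν) ^ 2 ≤ N + 2 := by
    have : (X + 2 * ν) ^ 2 ≤ B ^ 2 := Nat.pow_le_pow_left (by omega) 2
    nlinarith
  have a3 : 2 * X + 2 * ν ≤ N := by nlinarith
  refine F_unimodal I N ν X B b t h1 ht hb (by omega) hX1 a3 a1 a2 (by omega) ?_
  obtain ⟨m, hm⟩ : ∃ m, B = m + ν := ⟨B - ν, by omega⟩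
  have hm1 : B - ν = m := by omega
  rw [hm1]
  have hm60 : 60 ≤ m := by omega
  have hp := pow_big m hm60
  have b1 : I.card ≤ m := by omega
  have b2 : N + 1 ≤ (6 * m) ^ 2 := by
    refine hBN.trans (Nat.pow_le_pow_left (by omega) 2)
  have b1' : (I.card : ℝ) ≤ m := by exact_mod_cast b1
  have b2' : (N : ℝ) + 1 ≤ (6 * m) ^ 2 := by exact_mod_cast b2
  have hpos : (0 : ℝ) < (4 / 3 : ℝ) ^ m := by positivity
  have e : (3 / 4 : ℝ) ^ m = 1 / (4 / 3 : ℝ) ^ m := by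
    rw [one_div, ← inv_pow]; norm_num
  rw [e]
  have h7 : (I.card : ℝ) * (2 * (N + 1)) ≤ (4 / 3 : ℝ) ^ m := by
    calc (I.card : ℝ) * (2 * (N + 1)) ≤ m * (2 * (6 * m) ^ 2) := by gcongr
      _ = 72 * (m : ℝ) ^ 3 := by ring
      _ ≤ _ := hp
  calc (I.card : ℝ) * (1 / (4 / 3 : ℝ) ^ m) * (2 * (N + 1))
      = ((I.card : ℝ) * (2 * (N + 1))) / (4 / 3 : ℝ) ^ m := by ring
    _ ≤ 1 := by rw [div_le_one hpos]; exact h7

end Pool.Agent.H28.UV
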