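import Mathlib
import Pool.Agent.H28.UV.Num2

open Finset

namespace Pool.Agent.H28.UV

theorem F_unimodal_of_up {ι : Type*} (I : Finset ι) (N ν X B : ℕ) (b t : ι → ℕ)
    (ht : ∀ i ∈ I, t i ≤ ν) (hb : ∀ i ∈ I, b i ≤ N)
    (hN : 1 ≤ N) (hup : ∀ k, 2 * k + 1 + X ≤ N → F I N b t k ≤ F I N b t (k + 1))
    (hXN : 2 * X + 2 * ν ≤ N)
    (hB : (X + 2 * ν + B) ^ 2 + B ≤ N + 2) (hB2 : 2 * (X + 2 * ν) ^ 2 ≤ N + 2)
    (hBν : ν ≤ B)
    (hI : (I.card : ℝ) * (3 / 4 : ℝ) ^ (B - ν) * (2 * (N + 1)) ≤ 1) :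
    ∃ m, (∀ i, i < m → F I N b t i ≤ F I N b t (i + 1)) ∧
      ∀ i, m ≤ i → F I N b t (i + 1) ≤ F I N b t i := by
  classical
  by_cases hex : ∃ k, F I N b t (k + 1) < F I N b t k
  · refine ⟨Nat.find hex, fun i hi => ?_, fun i hi => ?_⟩
    · exact not_lt.1 (Nat.find_min hex hi)
    · induction i, hi using Nat.le_induction with
      | base => exact (Nat.find_spec hex).le
      | succ i hi ih =>
        by_cases c1 : N + 2 * ν ≤ 2 * i + 1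
        · exact F_down I N ν (i + 1) b t ht hN (by omega)
        · by_cases c2 : 2 * i + 1 + X ≤ N
          · exfalso
            have h3 := hup (Nat.find hex) (by omega)
            have h4 := Nat.find_spec hex
            omega
          · have h5 := F_mid I N ν X B i b t ht hb (by omega) hB hB2 (by omega) (by omega)
              (by omega) hBν hI
            have e : i + 1 + 1 = i + 2 := rfl
            rw [e]
            omega
  · push Not at hex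
    exact ⟨N + 2 * ν + 1, fun i _ => hex i, fun i hi => F_down I N ν i b t ht hN (by omega)⟩

lemma two_pow_le (ν : ℕ) : (2 : ℝ) ^ ν ≤ (4 / 3 : ℝ) ^ (3 * ν) := by
  rw [pow_mul]
  exact pow_le_pow_left₀ (by norm_num) (by norm_num) ν

theorem F_unimodal_poly {ι : Type*} (I : Finset ι) (N ν : ℕ) (b t : ι → ℕ)
    (ht : ∀ i ∈ I, t i ≤ ν) (hb : ∀ i ∈ I, b i ≤ N)
    (hup : ∀ k, 2 * k + 1 + ν ≤ N → F I N b t k ≤ F I N b t (k + 1))
    (hI : I.card ≤ 2 ^ ν) (hN : 9 * (8 * ν + 60) ^ 2 ≤ N) :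
    ∃ m, (∀ i, i < m → F I N b t i ≤ F I N b t (i + 1)) ∧
      ∀ i, m ≤ i → F I N b t (i + 1) ≤ F I N b t i := by
  set B : ℕ := Nat.sqrt N / 3 with hBdef
  have hs : 3 * (8 * ν + 60) ≤ Nat.sqrt N := by
    rw [Nat.le_sqrt']
    calc (3 * (8 * ν + 60)) ^ 2 = 9 * (8 * ν + 60) ^ 2 := by ring
      _ ≤ N := hN
  have hBR : 8 * ν + 60 ≤ B := by omega
  have hB9 : (3 * B) ^ 2 ≤ N := by
    rw [← Nat.le_sqrt']; omega
  have hBN : N + 1 ≤ (3 * (B + 1)) ^ 2 := by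
    have h5 : Nat.sqrt N < 3 * (B + 1) := by omega
    have h6 := Nat.sqrt_lt'.1 h5
    omega
  have a1 : (ν + 2 * ν + B) ^ 2 + B ≤ N + 2 := by
    have : (ν + 2 * ν + B) ^ 2 ≤ (2 * B) ^ 2 := Nat.pow_le_pow_left (by omega) 2
    nlinarith
  have a2 : 2 * (ν + 2 * ν) ^ 2 ≤ N + 2 := by
    have : (ν + 2 * ν) ^ 2 ≤ B ^ 2 := Nat.pow_le_pow_left (by omega) 2
    nlinarith
  have a3 : 2 * ν + 2 * ν ≤ N := by nlinarith
  refine F_unimodal_of_up I N ν ν B b t ht hb (by omega) hup a3 a1 a2 (by omega) ?_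
  obtain ⟨m, hm⟩ : ∃ m, B = m + 4 * ν := ⟨B - 4 * ν, by omega⟩
  have hm1 : B - ν = m + 3 * ν := by omega
  rw [hm1]
  have hm60 : 60 ≤ m := by omega
  have hp := pow_big m hm60
  have b2 : N + 1 ≤ (9 * m) ^ 2 := by
    refine hBN.trans (Nat.pow_le_pow_left (by omega) 2)
  have b1' : (I.card : ℝ) ≤ 2 ^ ν := by exact_mod_cast hI
  have b2' : (N : ℝ) + 1 ≤ (9 * m) ^ 2 := by exact_mod_cast b2
  have b3 : (60 : ℝ) ≤ m := by exact_mod_cast hm60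
  have hpos : (0 : ℝ) < (4 / 3 : ℝ) ^ (m + 3 * ν) := by positivity
  have e : (3 / 4 : ℝ) ^ (m + 3 * ν) = 1 / (4 / 3 : ℝ) ^ (m + 3 * ν) := by
    rw [one_div, ← inv_pow]; norm_num
  rw [e]
  have h7 : (I.card : ℝ) * (2 * (N + 1)) ≤ (4 / 3 : ℝ) ^ (m + 3 * ν) := by
    calc (I.card : ℝ) * (2 * (N + 1)) ≤ 2 ^ ν * (2 * (9 * m) ^ 2) := by gcongr
      _ ≤ 2 ^ ν * (72 * (m : ℝ) ^ 3) := by
          apply mul_le_mul_of_nonneg_left _ (by positivity)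
          have : 0 ≤ (m : ℝ) ^ 2 * ((m : ℝ) - 60) := mul_nonneg (sq_nonneg _) (by linarith)
          nlinarith [sq_nonneg (m : ℝ)]
      _ ≤ (4 / 3 : ℝ) ^ (3 * ν) * (4 / 3 : ℝ) ^ m := by
          apply mul_le_mul (two_pow_le ν) hp (by positivity) (by positivity)
      _ = _ := by rw [← pow_add]; ring_nf
  calc (I.card : ℝ) * (1 / (4 / 3 : ℝ) ^ (m + 3 * ν)) * (2 * (N + 1))
      = ((I.card : ℝ) * (2 * (N + 1))) / (4 / 3 : ℝ) ^ (m + 3 * ν) := by ring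
    _ ≤ 1 := by rw [div_le_one hpos]; exact h7

end Pool.Agent.H28.UV
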