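import Mathlib
import Pool.Agent.H28.UV.Num2
import Pool.Prelude.Def_F_f5f3026a

open Finset N36365310

namespace Pool.Agent.H28.UV

open Classical in
/-- vertices outside the cover -/
noncomputable def Out {V : Type*} [Fintype V] (C : Finset V) : Finset V := univ \ C

open Classical in
/-- vertices outside the cover with a neighbour in `T` -/
noncomputable def Nb {V : Type*} [Fintype V] (G : SimpleGraph V) (C T : Finset V) : Finset V :=
  (Out C).filter fun x => ∃ y ∈ T, G.Adj y x

open Classical in
/-- independent sets inside the cover -/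
noncomputable def Idx {V : Type*} [Fintype V] (G : SimpleGraph V) (C : Finset V) :
    Finset (Finset V) :=
  C.powerset.filter fun T => T ≠ ∅ ∧ G.IsIndepSet (T : Set V)

open Classical in
lemma fiber_card {V : Type*} [Fintype V] (G : SimpleGraph V) (C T : Finset V)
    (hC : ∀ x y, G.Adj x y → x ∈ C ∨ y ∈ C) (hT : T ⊆ C) (hTi : G.IsIndepSet (T : Set V))
    (k : ℕ) :
    (((univ : Finset (Finset V)).filter fun S : Finset V => S.card = k ∧ G.IsIndepSet (S : Set V)).filter
      fun S : Finset V => S ∩ C = T).card = sh ((Out C).card - (Nb G C T).card) T.card k := by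
  have hW : ((Out C).filter fun x => ¬ ∃ y ∈ T, G.Adj y x).card =
      (Out C).card - (Nb G C T).card := by
    have := Finset.card_filter_add_card_filter_not (s := Out C) (fun x => ∃ y ∈ T, G.Adj y x)
    unfold Nb
    omega
  rw [← hW]
  unfold sh
  by_cases hk : T.card ≤ k
  · rw [if_pos hk, ← Finset.card_powersetCard]
    refine Finset.card_bij' (fun S _ => S \ C) (fun U _ => T ∪ U) ?_ ?_ ?_ ?_
    · intro S hS
      simp only [mem_filter, mem_univ, true_and] at hS
      obtain ⟨⟨hSk, hSi⟩, hST⟩ := hS
      rw [mem_powersetCard]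
      refine ⟨fun x hx => ?_, ?_⟩
      · rw [mem_sdiff] at hx
        rw [mem_filter]
        refine ⟨by simp [Out, hx.2], ?_⟩
        rintro ⟨y, hy, hyx⟩
        have hyS : y ∈ S := by
          rw [← hST] at hy; exact (mem_inter.1 hy).1
        exact hSi (by exact_mod_cast hyS) (by exact_mod_cast hx.1) hyx.ne hyx
      · have := Finset.card_sdiff_add_card_inter S C
        rw [hST, hSk] at this
        omega
    · intro U hU
      rw [mem_powersetCard] at hU
      obtain ⟨hUW, hUc⟩ := hU
      have hUC : ∀ x ∈ U, x ∉ C := fun x hx => by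
        have := hUW hx
        simp only [mem_filter, Out, mem_sdiff, mem_univ, true_and] at this
        exact this.1
      have hUT : ∀ x ∈ U, ∀ y ∈ T, ¬ G.Adj y x := fun x hx y hy hyx => by
        have := hUW hx
        simp only [mem_filter] at this
        exact this.2 ⟨y, hy, hyx⟩
      simp only [mem_filter, mem_univ, true_and]
      refine ⟨⟨?_, ?_⟩, ?_⟩
      · rw [Finset.card_union_of_disjoint]
        · omega
        · rw [Finset.disjoint_left]
          intro x hx hxU
          exact hUC x hxU (hT hx)
      · intro x hx y hy hne hxy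
        rw [Finset.mem_coe, mem_union] at hx hy
        rcases hx with hx | hx <;> rcases hy with hy | hy
        · exact hTi (by exact_mod_cast hx) (by exact_mod_cast hy) hne hxy
        · exact hUT y hy x hx hxy
        · exact hUT x hx y hy hxy.symm
        · rcases hC x y hxy with h | h
          · exact hUC x hx h
          · exact hUC y hy h
      · ext x
        rw [mem_inter, mem_union]
        constructor
        · rintro ⟨h1 | h1, h2⟩
          · exact h1
          · exact absurd h2 (hUC x h1)
        · intro h
          exact ⟨Or.inl h, hT h⟩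
    · intro S hS
      simp only [mem_filter, mem_univ, true_and] at hS
      obtain ⟨_, hST⟩ := hS
      rw [← hST]
      ext x
      simp only [mem_union, mem_inter, mem_sdiff]
      tauto
    · intro U hU
      rw [mem_powersetCard] at hU
      obtain ⟨hUW, hUc⟩ := hU
      have hUC : ∀ x ∈ U, x ∉ C := fun x hx => by
        have := hUW hx
        simp only [mem_filter, Out, mem_sdiff, mem_univ, true_and] at this
        exact this.1
      ext x
      simp only [mem_union, mem_sdiff]
      constructor
      · rintro ⟨h1 | h1, h2⟩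
        · exact absurd (hT h1) h2
        · exact h1
      · intro h
        exact ⟨Or.inr h, hUC x h⟩
  · rw [if_neg hk, Finset.card_eq_zero, Finset.filter_eq_empty_iff]
    intro S hS hST
    simp only [mem_filter, mem_univ, true_and] at hS
    have h1 : (S ∩ C).card ≤ S.card := Finset.card_le_card Finset.inter_subset_left
    rw [hST, hS.1] at h1
    exact hk h1

open Classical in
lemma indepSeq_eq {V : Type*} [Fintype V] (G : SimpleGraph V) (C : Finset V)
    (hC : ∀ x y, G.Adj x y → x ∈ C ∨ y ∈ C) (k : ℕ) :
    indepSeq G k = F (Idx G C) (Out C).card (fun T => (Nb G C T).card) (fun T => T.card) k := by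
  have h1 : indepSeq G k =
      ((univ : Finset (Finset V)).filter fun S : Finset V => S.card = k ∧ G.IsIndepSet (S : Set V)).card := by
    unfold indepSeq
    rw [Nat.card_eq_fintype_card, Fintype.card_subtype]
  rw [h1]
  set A := (univ : Finset (Finset V)).filter fun S : Finset V => S.card = k ∧ G.IsIndepSet (S : Set V)
    with hA
  have h2 : A.card = ∑ T ∈ insert ∅ (Idx G C), (A.filter fun S : Finset V => S ∩ C = T).card := by
    apply Finset.card_eq_sum_card_fiberwise
    intro S hS
    rw [Finset.mem_coe, hA, mem_filter] at hS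
    rw [Finset.mem_coe, mem_insert]
    by_cases h0 : S ∩ C = ∅
    · exact Or.inl h0
    · right
      rw [Idx, mem_filter, mem_powerset]
      refine ⟨Finset.inter_subset_right, h0, ?_⟩
      intro x hx y hy hne hxy
      rw [Finset.mem_coe, mem_inter] at hx hy
      exact hS.2.2 (by exact_mod_cast hx.1) (by exact_mod_cast hy.1) hne hxy
  have h3 : (∅ : Finset V) ∉ Idx G C := by
    rw [Idx, mem_filter]
    rintro ⟨_, h, _⟩
    exact h rfl
  rw [h2, Finset.sum_insert h3]
  unfold F
  congr 1
  · rw [fiber_card G C ∅ hC (by simp) (by simp [SimpleGraph.IsIndepSet])]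
    have : Nb G C ∅ = ∅ := by
      rw [Nb, Finset.filter_eq_empty_iff]
      rintro x _ ⟨y, hy, _⟩
      exact absurd hy (by simp)
    rw [this]
    simp [sh]
  · apply Finset.sum_congr rfl
    intro T hT
    rw [Idx, mem_filter, mem_powerset] at hT
    exact fiber_card G C T hC hT.1 hT.2.2 k

theorem unimodal_of_cover {V : Type*} [Fintype V] (G : SimpleGraph V) (C : Finset V)
    (hC : ∀ x y, G.Adj x y → x ∈ C ∨ y ∈ C) (ν : ℕ) (hν : C.card ≤ ν)
    (hV : ν + 9 * ((ν + 1) * 2 ^ ν + 2 * ν + 60) ^ 2 ≤ Fintype.card V) :
    UnimodalSeq (indepSeq G) := by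
  classical
  have hOut : Fintype.card V ≤ (Out C).card + ν := by
    have h1 := Finset.card_sdiff_add_card_inter (univ : Finset V) C
    have h2 : (univ ∩ C : Finset V) = C := by simp
    rw [h2, Finset.card_univ] at h1
    unfold Out
    omega
  have key := F_unimodal' (Idx G C) (Out C).card ν (fun T => (Nb G C T).card)
    (fun T => T.card) ?_ ?_ ?_ ?_ (by omega)
  · obtain ⟨m, hm1, hm2⟩ := key
    refine ⟨m, fun i hi => ?_, fun i hi => ?_⟩
    · rw [indepSeq_eq G C hC, indepSeq_eq G C hC]; exact hm1 i hi
    · rw [indepSeq_eq G C hC, indepSeq_eq G C hC]; exact hm2 i hi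
  · intro T hT
    rw [Idx, mem_filter] at hT
    exact Finset.card_pos.2 (Finset.nonempty_iff_ne_empty.2 hT.2.1)
  · intro T hT
    rw [Idx, mem_filter, mem_powerset] at hT
    exact (Finset.card_le_card hT.1).trans hν
  · intro T _
    exact Finset.card_le_card (Finset.filter_subset _ _)
  · calc (Idx G C).card ≤ C.powerset.card := Finset.card_le_card (Finset.filter_subset _ _)
      _ = 2 ^ C.card := Finset.card_powerset C
      _ ≤ 2 ^ ν := Nat.pow_le_pow_right (by norm_num) hν

end Pool.Agent.H28.UV
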