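import Mathlib
import Pool.Agent.H28.UV.Graph

open Finset N36365310

namespace Pool.Agent.H28.UV

open Classical in
/-- independent sets with `k` elements -/
noncomputable def Ind {V : Type*} [Fintype V] (G : SimpleGraph V) (k : ℕ) :
    Finset (Finset V) :=
  (univ : Finset (Finset V)).filter fun S : Finset V => S.card = k ∧ G.IsIndepSet (S : Set V)

lemma mem_Ind {V : Type*} [Fintype V] (G : SimpleGraph V) (k : ℕ) (S : Finset V) :
    S ∈ Ind G k ↔ S.card = k ∧ ∀ x ∈ S, ∀ y ∈ S, ¬ G.Adj x y := by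
  classical
  unfold Ind
  rw [mem_filter]
  constructor
  · rintro ⟨_, h1, h2⟩
    refine ⟨h1, fun x hx y hy hxy => ?_⟩
    exact h2 (by exact_mod_cast hx) (by exact_mod_cast hy) hxy.ne hxy
  · rintro ⟨h1, h2⟩
    refine ⟨mem_univ _, h1, fun x hx y hy _ hxy => ?_⟩
    exact h2 x (by exact_mod_cast hx) y (by exact_mod_cast hy) hxy

lemma indepSeq_card {V : Type*} [Fintype V] (G : SimpleGraph V) (k : ℕ) :
    indepSeq G k = (Ind G k).card := by
  classical
  unfold indepSeq Ind
  rw [Nat.card_eq_fintype_card, Fintype.card_subtype]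

open Classical in
lemma blocked_le {V : Type*} [Fintype V] (G : SimpleGraph V) (C : Finset V)
    (hC : ∀ x y, G.Adj x y → x ∈ C ∨ y ∈ C)
    (h1 : ∀ u, u ∉ C → ∀ x ∈ C, ∀ y ∈ C, G.Adj u x → G.Adj u y → x = y) (k : ℕ) :
    ∑ S ∈ Ind G k, ((Out C).filter fun u => ∃ v ∈ S, G.Adj v u).card ≤
      (Ind G k).card * C.card := by
  rw [← Finset.card_sigma, ← Finset.card_product]
  -- choose the blocking vertex
  have hch : ∀ p : (_ : Finset V) × V, ∃ v : V, (∃ v ∈ p.1, G.Adj v p.2) →
      v ∈ p.1 ∧ G.Adj v p.2 := by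
    intro p
    by_cases h : ∃ v ∈ p.1, G.Adj v p.2
    · obtain ⟨v, hv1, hv2⟩ := h
      exact ⟨v, fun _ => ⟨hv1, hv2⟩⟩
    · exact ⟨p.2, fun h' => absurd h' h⟩
  choose c hc using hch
  have hout : ∀ u, u ∈ Out C ↔ u ∉ C := fun u => by simp [Out]
  have base : ∀ p ∈ (Ind G k).sigma (fun S => (Out C).filter fun u => ∃ v ∈ S, G.Adj v u),
      (p.1.card = k ∧ ∀ x ∈ p.1, ∀ y ∈ p.1, ¬ G.Adj x y) ∧ p.2 ∉ C ∧ c p ∈ p.1 ∧
        G.Adj (c p) p.2 ∧ c p ∈ C ∧ p.2 ∉ p.1 ∧ ∀ x ∈ p.1, G.Adj x p.2 → x = c p := by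
    intro p hp
    rw [mem_sigma, mem_filter, mem_Ind, hout] at hp
    obtain ⟨hS, hu, hv⟩ := hp
    obtain ⟨hc1, hc2⟩ := hc p hv
    have hcC : c p ∈ C := (hC _ _ hc2).resolve_right hu
    refine ⟨hS, hu, hc1, hc2, hcC, fun h => hS.2 _ hc1 _ h hc2, fun x hx hxu => ?_⟩
    have hxC : x ∈ C := (hC _ _ hxu).resolve_right hu
    exact h1 p.2 hu x hxC (c p) hcC hxu.symm hc2.symm
  refine Finset.card_le_card_of_injOn
    (fun p => ((insert p.2 (p.1.erase (c p)) : Finset V), c p)) ?_ ?_
  · intro p hp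
    obtain ⟨hS, hu, hc1, hc2, hcC, hup, huniq⟩ := base p (by exact_mod_cast hp)
    rw [Finset.mem_coe, mem_product, mem_Ind]
    refine ⟨⟨?_, ?_⟩, hcC⟩
    · rw [card_insert_of_notMem (fun h => hup (mem_of_mem_erase h)), card_erase_of_mem hc1, hS.1]
      have : 0 < p.1.card := card_pos.2 ⟨_, hc1⟩
      omega
    · have hno : ∀ x ∈ p.1.erase (c p), ¬ G.Adj x p.2 := fun x hx hxu =>
        (mem_erase.1 hx).1 (huniq x (mem_of_mem_erase hx) hxu)
      intro x hx y hy hxy
      simp only [mem_insert] at hx hy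
      rcases hx with rfl | hx <;> rcases hy with rfl | hy
      · exact hxy.ne rfl
      · exact hno y hy hxy.symm
      · exact hno x hx hxy
      · exact hS.2 x (mem_of_mem_erase hx) y (mem_of_mem_erase hy) hxy
  · intro p hp q hq hpq
    obtain ⟨hS, hu, hc1, hc2, hcC, hup, huniq⟩ := base p (by exact_mod_cast hp)
    obtain ⟨hS', hu', hc1', hc2', hcC', hup', huniq'⟩ := base q (by exact_mod_cast hq)
    simp only [Prod.mk.injEq] at hpq
    obtain ⟨e1, e2⟩ := hpq
    -- p.2 lies in the second set and is adjacent to `c q`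
    have hu2 : p.2 = q.2 := by
      have : p.2 ∈ insert q.2 (q.1.erase (c q)) := by rw [← e1]; exact mem_insert_self _ _
      rw [mem_insert] at this
      rcases this with h | h
      · exact h
      · exfalso
        exact hS'.2 _ hc1' _ (mem_of_mem_erase h) (by rw [← e2]; exact hc2)
    have hS2 : p.1 = q.1 := by
      have e3 : p.1.erase (c p) = q.1.erase (c q) := by
        have h3 := congrArg (fun s : Finset V => s.erase p.2) e1
        rw [erase_insert (fun h => hup (mem_of_mem_erase h)), hu2,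
          erase_insert (fun h => hup' (mem_of_mem_erase h))] at h3
        exact h3
      rw [← insert_erase hc1, e3, e2, insert_erase hc1']
    cases p; cases q
    simp only at hu2 hS2
    subst hu2 hS2
    rfl

open Classical in
lemma free_le {V : Type*} [Fintype V] (G : SimpleGraph V) (C : Finset V) (k : ℕ) :
    ∑ S ∈ Ind G k, ((Out C).filter fun u => u ∉ S ∧ ¬ ∃ v ∈ S, G.Adj v u).card ≤
      (k + 1) * (Ind G (k + 1)).card := by
  have hR : (k + 1) * (Ind G (k + 1)).card =
      ((Ind G (k + 1)).sigma (fun S => S)).card := by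
    rw [Finset.card_sigma, Finset.sum_congr rfl (fun S hS => ((mem_Ind G _ S).1 hS).1),
      Finset.sum_const, smul_eq_mul, mul_comm]
  rw [hR, ← Finset.card_sigma]
  refine Finset.card_le_card_of_injOn (fun p => ⟨insert p.2 p.1, p.2⟩) ?_ ?_
  · intro p hp
    rw [Finset.mem_coe, mem_sigma, mem_filter, mem_Ind] at hp
    obtain ⟨hS, _, hu, hv⟩ := hp
    rw [Finset.mem_coe, mem_sigma, mem_Ind]
    refine ⟨⟨?_, ?_⟩, mem_insert_self _ _⟩
    · rw [card_insert_of_notMem hu, hS.1]
    · intro x hx y hy hxy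
      simp only [mem_insert] at hx hy
      rcases hx with rfl | hx <;> rcases hy with rfl | hy
      · exact hxy.ne rfl
      · exact hv ⟨y, hy, hxy.symm⟩
      · exact hv ⟨x, hx, hxy⟩
      · exact hS.2 x hx y hy hxy
  · intro p hp q hq hpq
    rw [Finset.mem_coe, mem_sigma, mem_filter, mem_Ind] at hp hq
    obtain ⟨_, _, hu, _⟩ := hp
    obtain ⟨_, _, hu', _⟩ := hq
    cases p with | mk S u => ?_
    cases q with | mk S' u' => ?_
    simp only [Sigma.mk.injEq, heq_eq_eq] at hpq hu hu'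
    obtain ⟨e1, rfl⟩ := hpq
    have h3 := congrArg (fun s : Finset V => s.erase u) e1
    rw [erase_insert hu, erase_insert hu'] at h3
    rw [h3]

theorem up {V : Type*} [Fintype V] (G : SimpleGraph V) (C : Finset V)
    (hC : ∀ x y, G.Adj x y → x ∈ C ∨ y ∈ C)
    (h1 : ∀ u, u ∉ C → ∀ x ∈ C, ∀ y ∈ C, G.Adj u x → G.Adj u y → x = y) (k : ℕ)
    (hk : 2 * k + 1 + C.card ≤ (Out C).card) : indepSeq G k ≤ indepSeq G (k + 1) := by
  classical
  rw [indepSeq_card, indepSeq_card]
  have hb := blocked_le G C hC h1 k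
  have hf := free_le G C k
  have hsum : (Ind G k).card * (Out C).card ≤ (Ind G k).card * k +
      ∑ S ∈ Ind G k, ((Out C).filter fun u => ∃ v ∈ S, G.Adj v u).card +
      ∑ S ∈ Ind G k, ((Out C).filter fun u => u ∉ S ∧ ¬ ∃ v ∈ S, G.Adj v u).card := by
    rw [← smul_eq_mul, ← Finset.sum_const, ← smul_eq_mul (Ind G k).card k, ← Finset.sum_const,
      ← Finset.sum_add_distrib, ← Finset.sum_add_distrib]
    apply Finset.sum_le_sum
    intro S hS
    rw [mem_Ind] at hS
    have hcov : Out C ⊆ S ∪ ((Out C).filter fun u => ∃ v ∈ S, G.Adj v u) ∪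
        ((Out C).filter fun u => u ∉ S ∧ ¬ ∃ v ∈ S, G.Adj v u) := by
      intro u hu
      simp only [mem_union, mem_filter]
      by_cases a : u ∈ S
      · exact Or.inl (Or.inl a)
      · by_cases b : ∃ v ∈ S, G.Adj v u
        · exact Or.inl (Or.inr ⟨hu, b⟩)
        · exact Or.inr ⟨hu, a, b⟩
    calc (Out C).card ≤ _ := Finset.card_le_card hcov
      _ ≤ _ := Finset.card_union_le _ _
      _ ≤ _ := by
        have := Finset.card_union_le S ((Out C).filter fun u => ∃ v ∈ S, G.Adj v u)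
        rw [hS.1] at this
        omega
  have h5 : (Ind G k).card * (Out C).card ≤ (Ind G k).card * (k + C.card) +
      (k + 1) * (Ind G (k + 1)).card := by
    rw [Nat.mul_add]; omega
  have h6 : (Ind G k).card * (2 * k + 1 + C.card) ≤ (Ind G k).card * (Out C).card :=
    Nat.mul_le_mul_left _ hk
  have h7 : (k + 1) * (Ind G k).card ≤ (k + 1) * (Ind G (k + 1)).card := by
    have e : (Ind G k).card * (2 * k + 1 + C.card) =
        (Ind G k).card * (k + C.card) + (k + 1) * (Ind G k).card := by ring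
    omega
  exact Nat.le_of_mul_le_mul_left h7 (by omega)

end Pool.Agent.H28.UV
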