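import Mathlib
import Pool.Agent.H28.UV.Up
import Pool.Agent.H28.UV.Num3

open Finset N36365310

namespace Pool.Agent.H28.UV

theorem unimodal_of_few {V : Type*} [Fintype V] (G : SimpleGraph V) (C : Finset V)
    (hC : ∀ x y, G.Adj x y → x ∈ C ∨ y ∈ C)
    (h1 : ∀ u, u ∉ C → ∀ x ∈ C, ∀ y ∈ C, G.Adj u x → G.Adj u y → x = y)
    (hV : C.card + 9 * (8 * C.card + 60) ^ 2 ≤ Fintype.card V) :
    UnimodalSeq (indepSeq G) := by
  classical
  have hOut : Fintype.card V ≤ (Out C).card + C.card := by
    have h1 := Finset.card_sdiff_add_card_inter (univ : Finset V) C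
    have h2 : (univ ∩ C : Finset V) = C := by simp
    rw [h2, Finset.card_univ] at h1
    unfold Out
    omega
  have key := F_unimodal_poly (Idx G C) (Out C).card C.card (fun T => (Nb G C T).card)
    (fun T => T.card) ?_ ?_ ?_ ?_ (by omega)
  · obtain ⟨m, hm1, hm2⟩ := key
    refine ⟨m, fun i hi => ?_, fun i hi => ?_⟩
    · rw [indepSeq_eq G C hC, indepSeq_eq G C hC]; exact hm1 i hi
    · rw [indepSeq_eq G C hC, indepSeq_eq G C hC]; exact hm2 i hi
  · intro T hT
    rw [Idx, mem_filter, mem_powerset] at hT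
    exact Finset.card_le_card hT.1
  · intro T _
    exact Finset.card_le_card (Finset.filter_subset _ _)
  · intro k hk
    rw [← indepSeq_eq G C hC, ← indepSeq_eq G C hC]
    exact up G C hC h1 k hk
  · calc (Idx G C).card ≤ C.powerset.card := Finset.card_le_card (Finset.filter_subset _ _)
      _ = 2 ^ C.card := Finset.card_powerset C

lemma acyclic_edges {W : Type*} [Fintype W] [Nonempty W] (H : SimpleGraph W)
    (hH : H.IsAcyclic) : ∃ T : SimpleGraph W, H ≤ T ∧ Nat.card T.edgeSet + 1 = Fintype.card W := by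
  classical
  obtain ⟨T, h⟩ := (SimpleGraph.connected_top (V := W)).exists_isTree_le_of_le_of_isAcyclic
    (le_top : H ≤ ⊤) hH
  refine ⟨T, h.1, ?_⟩
  have hT : T.IsTree := h.2.2
  have := hT.card_edgeFinset
  rw [← this, SimpleGraph.edgeFinset_card, Nat.card_eq_fintype_card]

open Classical in
/-- outside vertices with two neighbours in `C` -/
noncomputable def Two {V : Type*} [Fintype V] (G : SimpleGraph V) (C : Finset V) : Finset V :=
  (Out C).filter fun u => ∃ x ∈ C, ∃ y ∈ C, G.Adj u x ∧ G.Adj u y ∧ x ≠ y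

theorem card_two {V : Type*} [Fintype V] (G : SimpleGraph V) (hG : G.IsAcyclic)
    (C : Finset V) : (Two G C).card ≤ C.card := by
  classical
  rcases (Two G C).eq_empty_or_nonempty with h0 | h0
  · rw [h0]; simp
  have hdis : Disjoint C (Two G C) := by
    rw [Finset.disjoint_left]
    intro x hx hx2
    simp only [Two, Out, mem_filter, mem_sdiff, mem_univ, true_and] at hx2
    exact hx2.1 hx
  let s : Set V := {v | v ∈ C ∪ Two G C}
  have hcard : Fintype.card s = C.card + (Two G C).card := by
    rw [← Finset.card_union_of_disjoint hdis]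
    exact Fintype.card_coe (C ∪ Two G C)
  obtain ⟨v0, hv0⟩ := h0
  have : Nonempty s := ⟨⟨v0, mem_union_right _ hv0⟩⟩
  obtain ⟨T, hHT, hT⟩ := acyclic_edges (G.induce s) (hG.induce s)
  have hch : ∀ u : Two G C, ∃ x y : s, (x : V) ∈ C ∧ (y : V) ∈ C ∧ G.Adj u x ∧ G.Adj u y ∧
      x ≠ y := by
    rintro ⟨u, hu⟩
    simp only [Two, mem_filter] at hu
    obtain ⟨_, x, hx, y, hy, h1, h2, h3⟩ := hu
    exact ⟨⟨x, mem_union_left _ hx⟩, ⟨y, mem_union_left _ hy⟩, hx, hy, h1, h2,
      fun h => h3 (congrArg Subtype.val h)⟩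
  choose a b ha hb hua hub hab using hch
  let inc : Two G C → s := fun u => ⟨u.1, mem_union_right _ u.2⟩
  let f : Two G C × Bool → T.edgeSet := fun p =>
    if p.2 then ⟨s(inc p.1, a p.1), hHT (hua p.1)⟩ else ⟨s(inc p.1, b p.1), hHT (hub p.1)⟩
  have hf : Function.Injective f := by
    have hnot : ∀ (u : Two G C) (x : s), (x : V) ∈ C → inc u ≠ x := by
      intro u x hx h
      have h1 : (u : V) ∈ C := by
        have := congrArg Subtype.val h
        simp only [inc] at this
        rw [this]; exact hx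
      exact Finset.disjoint_left.1 hdis h1 u.2
    have hinc : ∀ u u' : Two G C, inc u = inc u' → u = u' := by
      intro u u' h
      have h' : ((inc u : s) : V) = ((inc u' : s) : V) := by rw [h]
      exact Subtype.ext h'
    rintro ⟨u, i⟩ ⟨u', i'⟩ h
    cases i <;> cases i' <;> simp only [f, if_true, if_false, Bool.false_eq_true] at h <;>
      have h2 := congrArg Subtype.val h <;> simp only [Sym2.eq_iff] at h2 <;>
      rcases h2 with ⟨e1, e2⟩ | ⟨e1, e2⟩
    · rw [hinc _ _ e1]
    · exact absurd e1 (hnot _ _ (hb _))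
    · have := hinc _ _ e1
      subst this
      exact absurd e2.symm (hab _)
    · exact absurd e1 (hnot _ _ (ha _))
    · have := hinc _ _ e1
      subst this
      exact absurd e2 (hab _)
    · exact absurd e1 (hnot _ _ (hb _))
    · rw [hinc _ _ e1]
    · exact absurd e1 (hnot _ _ (ha _))
  have h5 : Nat.card (Two G C × Bool) ≤ Nat.card T.edgeSet := Nat.card_le_card_of_injective f hf
  rw [Nat.card_prod] at h5
  simp only [Nat.card_eq_fintype_card, Fintype.card_coe, Fintype.card_bool] at h5 hT
  rw [hcard] at hT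
  omega

theorem unimodal_forest {V : Type*} [Fintype V] (G : SimpleGraph V) (hG : G.IsAcyclic)
    (C : Finset V) (hC : ∀ x y, G.Adj x y → x ∈ C ∨ y ∈ C)
    (hV : 2 * C.card + 9 * (16 * C.card + 60) ^ 2 ≤ Fintype.card V) :
    UnimodalSeq (indepSeq G) := by
  classical
  have h2 := card_two G hG C
  have h3 : (C ∪ Two G C).card ≤ 2 * C.card := by
    have := Finset.card_union_le C (Two G C)
    omega
  refine unimodal_of_few G (C ∪ Two G C) (fun x y h => ?_) (fun u hu x hx y hy hux huy => ?_) ?_
  · rcases hC x y h with h | h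
    · exact Or.inl (mem_union_left _ h)
    · exact Or.inr (mem_union_left _ h)
  · rw [mem_union, not_or] at hu
    have hxC : x ∈ C := (hC u x hux).resolve_left hu.1
    have hyC : y ∈ C := (hC u y huy).resolve_left hu.1
    by_contra hne
    apply hu.2
    simp only [Two, Out, mem_filter, mem_sdiff, mem_univ, true_and]
    exact ⟨hu.1, x, hxC, y, hyC, hux, huy, hne⟩
  · have h4 : (8 * (C ∪ Two G C).card + 60) ^ 2 ≤ (16 * C.card + 60) ^ 2 :=
      Nat.pow_le_pow_left (by omega) 2
    omega

end Pool.Agent.H28.UV
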