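import Mathlib
import Pool.Agent.H28.UV.Main

open Finset N36365310

namespace Pool.Agent.H28.UV

theorem unimodal_connected {V : Type*} [Fintype V] (G : SimpleGraph V) (hG : G.Connected)
    (m : ℕ) (hm : {v : V | ∃ x y, G.Adj v x ∧ G.Adj v y ∧ x ≠ y}.ncard ≤ m)
    (hV : m + 9 * (8 * m + 60) ^ 2 ≤ Fintype.card V) :
    UnimodalSeq (indepSeq G) := by
  classical
  set C : Finset V := univ.filter fun v => ∃ x y, G.Adj v x ∧ G.Adj v y ∧ x ≠ y with hCdef
  have hCm : C.card ≤ m := by
    have : {v : V | ∃ x y, G.Adj v x ∧ G.Adj v y ∧ x ≠ y} = (C : Set V) := by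
      ext v; simp [hCdef]
    rw [this, Set.ncard_coe_finset] at hm
    exact hm
  have hmem : ∀ v, v ∈ C ↔ ∃ x y, G.Adj v x ∧ G.Adj v y ∧ x ≠ y := fun v => by simp [hCdef]
  have huniq : ∀ v, v ∉ C → ∀ x y, G.Adj v x → G.Adj v y → x = y := by
    intro v hv x y hx hy
    by_contra hne
    exact hv ((hmem v).2 ⟨x, y, hx, hy, hne⟩)
  refine unimodal_of_few G C ?_ (fun u hu x _ y _ hux huy => huniq u hu x y hux huy) ?_
  · intro x y hxy
    by_contra hcon
    rw [not_or] at hcon
    have hcl : ∀ u z, G.Adj u z → (u = x ∨ u = y) → (z = x ∨ z = y) := by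
      intro u z huz hu
      rcases hu with rfl | rfl
      · exact Or.inr (huniq _ hcon.1 _ _ huz hxy)
      · exact Or.inl (huniq _ hcon.2 _ _ huz hxy.symm)
    have hwalk : ∀ (u z : V) (_ : G.Walk u z), (u = x ∨ u = y) → (z = x ∨ z = y) := by
      intro u z w
      induction w with
      | nil => exact id
      | cons h p ih => exact fun hu => ih (hcl _ _ h hu)
    have hall : (univ : Finset V) ⊆ {x, y} := by
      intro z _
      obtain ⟨w⟩ := hG.preconnected x z
      have := hwalk x z w (Or.inl rfl)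
      simpa using this
    have h1 := Finset.card_le_card hall
    have h2 : ({x, y} : Finset V).card ≤ 2 := Finset.card_le_two
    rw [Finset.card_univ] at h1
    have h3 : 60 ^ 2 ≤ (8 * m + 60) ^ 2 := Nat.pow_le_pow_left (by omega) 2
    omega
  · have h4 : (8 * C.card + 60) ^ 2 ≤ (8 * m + 60) ^ 2 := Nat.pow_le_pow_left (by omega) 2
    omega

end Pool.Agent.H28.UV
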