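import Mathlib
import Pool.Agent.H28.UV.Main

open Finset N36365310

namespace Pool.Agent.H28.UV

open Classical in
/-- outside vertices with exactly one neighbour in `S` -/
noncomputable def One {V : Type*} [Fintype V] (G : SimpleGraph V) (C S : Finset V) : Finset V :=
  (Out C).filter fun u => (∃ v ∈ S, G.Adj v u) ∧
    ∀ x ∈ S, ∀ y ∈ S, G.Adj x u → G.Adj y u → x = y

lemma one_le {V : Type*} [Fintype V] (G : SimpleGraph V) (C : Finset V)
    (hC : ∀ x y, G.Adj x y → x ∈ C ∨ y ∈ C) (k : ℕ) :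
    ∑ S ∈ Ind G k, (One G C S).card ≤ (Ind G k).card * C.card := by
  classical
  rw [← Finset.card_sigma, ← Finset.card_product]
  have hch : ∀ p : (_ : Finset V) × V, ∃ v : V, (∃ v ∈ p.1, G.Adj v p.2) →
      v ∈ p.1 ∧ G.Adj v p.2 := by
    intro p
    by_cases h : ∃ v ∈ p.1, G.Adj v p.2
    · obtain ⟨v, hv1, hv2⟩ := h
      exact ⟨v, fun _ => ⟨hv1, hv2⟩⟩
    · exact ⟨p.2, fun h' => absurd h' h⟩
  choose c hc using hch
  have hout : ∀ u, u ∈ Out C ↔ u ∉ C := fun u => by simp [Out]
  have base : ∀ p ∈ (Ind G k).sigma (fun S => One G C S),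
      (p.1.card = k ∧ ∀ x ∈ p.1, ∀ y ∈ p.1, ¬ G.Adj x y) ∧ p.2 ∉ C ∧ c p ∈ p.1 ∧
        G.Adj (c p) p.2 ∧ c p ∈ C ∧ p.2 ∉ p.1 ∧ ∀ x ∈ p.1, G.Adj x p.2 → x = c p := by
    intro p hp
    rw [mem_sigma, One, mem_filter, mem_Ind, hout] at hp
    obtain ⟨hS, hu, hv, hun⟩ := hp
    obtain ⟨hc1, hc2⟩ := hc p hv
    have hcC : c p ∈ C := (hC _ _ hc2).resolve_right hu
    exact ⟨hS, hu, hc1, hc2, hcC, fun h => hS.2 _ hc1 _ h hc2,
      fun x hx hxu => hun x hx (c p) hc1 hxu hc2⟩
  refine Finset.card_le_card_of_injOn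
    (fun p => ((insert p.2 (p.1.erase (c p)) : Finset V), c p)) ?_ ?_
  · intro p hp
    obtain ⟨hS, hu, hc1, hc2, hcC, hup, huniq⟩ := base p (by exact_mod_cast hp)
    rw [Finset.mem_coe, mem_product, mem_Ind]
    refine ⟨⟨?_, ?_⟩, hcC⟩
    · rw [card_insert_of_notMem (fun h => hup (mem_of_mem_erase h)), card_erase_of_mem hc1, hS.1]
      have : 0 < p.1.card := card_pos.2 ⟨_, hc1⟩
      omega
    · have hno : ∀ x ∈ p.1.erase (c p), ¬ G.Adj x p.2 := fun x hx hxu =>
        (mem_erase.1 hx).1 (huniq x (mem_of_mem_erase hx) hxu)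
      intro x hx y hy hxy
      simp only [mem_insert] at hx hy
      rcases hx with rfl | hx <;> rcases hy with rfl | hy
      · exact hxy.ne rfl
      · exact hno y hy hxy.symm
      · exact hno x hx hxy
      · exact hS.2 x (mem_of_mem_erase hx) y (mem_of_mem_erase hy) hxy
  · intro p hp q hq hpq
    obtain ⟨hS, hu, hc1, hc2, hcC, hup, huniq⟩ := base p (by exact_mod_cast hp)
    obtain ⟨hS', hu', hc1', hc2', hcC', hup', huniq'⟩ := base q (by exact_mod_cast hq)
    simp only [Prod.mk.injEq] at hpq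
    obtain ⟨e1, e2⟩ := hpq
    have hu2 : p.2 = q.2 := by
      have : p.2 ∈ insert q.2 (q.1.erase (c q)) := by rw [← e1]; exact mem_insert_self _ _
      rw [mem_insert] at this
      rcases this with h | h
      · exact h
      · exfalso
        exact hS'.2 _ hc1' _ (mem_of_mem_erase h) (by rw [← e2]; exact hc2)
    have hS2 : p.1 = q.1 := by
      have e3 : p.1.erase (c p) = q.1.erase (c q) := by
        have h3 := congrArg (fun s : Finset V => s.erase p.2) e1
        rw [erase_insert (fun h => hup (mem_of_mem_erase h)), hu2,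
          erase_insert (fun h => hup' (mem_of_mem_erase h))] at h3
        exact h3
      rw [← insert_erase hc1, e3, e2, insert_erase hc1']
    cases p; cases q
    simp only at hu2 hS2
    subst hu2 hS2
    rfl

theorem up_forest {V : Type*} [Fintype V] (G : SimpleGraph V) (hG : G.IsAcyclic) (C : Finset V)
    (hC : ∀ x y, G.Adj x y → x ∈ C ∨ y ∈ C) (k : ℕ)
    (hk : 2 * k + 1 + C.card ≤ (Out C).card) : indepSeq G k ≤ indepSeq G (k + 1) := by
  classical
  rw [indepSeq_card, indepSeq_card]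
  have hb := one_le G C hC k
  have hf := free_le G C k
  have hout : ∀ u, u ∈ Out C ↔ u ∉ C := fun u => by simp [Out]
  have hsum : (Ind G k).card * (Out C).card ≤ (Ind G k).card * k +
      ∑ S ∈ Ind G k, (One G C S).card +
      ∑ S ∈ Ind G k, ((Out C).filter fun u => u ∉ S ∧ ¬ ∃ v ∈ S, G.Adj v u).card := by
    rw [← smul_eq_mul, ← Finset.sum_const, ← smul_eq_mul (Ind G k).card k, ← Finset.sum_const,
      ← Finset.sum_add_distrib, ← Finset.sum_add_distrib]
    apply Finset.sum_le_sum
    intro S hS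
    rw [mem_Ind] at hS
    have hcov : Out C ⊆ ((S \ C) ∪ Two G (S ∩ C)) ∪ (One G C S ∪
        ((Out C).filter fun u => u ∉ S ∧ ¬ ∃ v ∈ S, G.Adj v u)) := by
      intro u hu
      have huC := (hout u).1 hu
      simp only [mem_union]
      by_cases a : u ∈ S
      · exact Or.inl (Or.inl (mem_sdiff.2 ⟨a, huC⟩))
      · by_cases b : ∃ v ∈ S, G.Adj v u
        · by_cases d : ∀ x ∈ S, ∀ y ∈ S, G.Adj x u → G.Adj y u → x = y
          · exact Or.inr (Or.inl (by rw [One, mem_filter]; exact ⟨hu, b, d⟩))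
          · push Not at d
            obtain ⟨x, hx, y, hy, hxu, hyu, hne⟩ := d
            refine Or.inl (Or.inr ?_)
            rw [Two, mem_filter]
            have hxC : x ∈ C := (hC _ _ hxu).resolve_right huC
            have hyC : y ∈ C := (hC _ _ hyu).resolve_right huC
            refine ⟨?_, x, mem_inter.2 ⟨hx, hxC⟩, y, mem_inter.2 ⟨hy, hyC⟩, hxu.symm, hyu.symm,
              hne⟩
            simp only [Out, mem_sdiff, mem_univ, true_and, mem_inter, not_and]
            exact fun h => absurd h a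
        · exact Or.inr (Or.inr (mem_filter.2 ⟨hu, a, b⟩))
    have h2 := card_two G hG (S ∩ C)
    have h3 := Finset.card_sdiff_add_card_inter S C
    rw [hS.1] at h3
    have g1 := Finset.card_le_card hcov
    have g2 := Finset.card_union_le ((S \ C) ∪ Two G (S ∩ C)) (One G C S ∪
        ((Out C).filter fun u => u ∉ S ∧ ¬ ∃ v ∈ S, G.Adj v u))
    have g3 := Finset.card_union_le (S \ C) (Two G (S ∩ C))
    have g4 := Finset.card_union_le (One G C S)
        ((Out C).filter fun u => u ∉ S ∧ ¬ ∃ v ∈ S, G.Adj v u)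
    omega
  have h5 : (Ind G k).card * (Out C).card ≤ (Ind G k).card * (k + C.card) +
      (k + 1) * (Ind G (k + 1)).card := by
    rw [Nat.mul_add]; omega
  have h6 : (Ind G k).card * (2 * k + 1 + C.card) ≤ (Ind G k).card * (Out C).card :=
    Nat.mul_le_mul_left _ hk
  have h7 : (k + 1) * (Ind G k).card ≤ (k + 1) * (Ind G (k + 1)).card := by
    have e : (Ind G k).card * (2 * k + 1 + C.card) =
        (Ind G k).card * (k + C.card) + (k + 1) * (Ind G k).card := by ring
    omega
  exact Nat.le_of_mul_le_mul_left h7 (by omega)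

theorem up_forest' {V : Type*} [Fintype V] (G : SimpleGraph V) (hG : G.IsAcyclic) (J : Finset V)
    (hJ : G.IsIndepSet (J : Set V)) (k : ℕ) (hk : 2 * k + 1 + Fintype.card V ≤ 2 * J.card) :
    indepSeq G k ≤ indepSeq G (k + 1) := by
  classical
  refine up_forest G hG (univ \ J) (fun x y hxy => ?_) k ?_
  · by_contra h
    simp only [mem_sdiff, mem_univ, true_and, not_or, not_not] at h
    exact hJ (by exact_mod_cast h.1) (by exact_mod_cast h.2) hxy.ne hxy
  · have h1 : Out (univ \ J) = J := by simp [Out]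
    have h2 := Finset.card_sdiff_add_card_inter (univ : Finset V) J
    have h3 : (univ ∩ J : Finset V) = J := by simp
    rw [h3, Finset.card_univ] at h2
    rw [h1]
    omega

end Pool.Agent.H28.UV
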